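import Pool.Agent.Run7.h614.NP.Fam
import Pool.Agent.Run7.h614.NP.Her
import Pool.Agent.Y291.NP.BLK
import Pool.Agent.Y520.NP.BM
import Pool.Agent.Y960.NP.Nar
import Pool.Agent.Y677.RSZ.Top

/-!
# Every infinite set of integers contains an infinite set all of whose subsets are exact prime
patterns along narrow progressions

Let the positive integers be coloured with finitely many colours. Every infinite set `A` of integers
contains an infinite set `B` such that EVERY subset `I` of `B`, finite or infinite, is an exact
coloured prime pattern along narrow progressions. There are colourings `γ I` of the integers, for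
`I ⊆ B`, such that for every radius `R` and every length `k` there is an exponent `C` such that for
all `I ⊆ B` there are arbitrarily large `n` with a difference `1 ≤ d ≤ (log n) ^ C` for which each of
the `k` numbers `m = n, n + d, …, n + (k - 1) d` has the following property: the prime numbers at
distance at most `R` from `m` are exactly the numbers `m + y`, `y ∈ I`, `|y| ≤ R`, and the prime number
`m + y` has the colour `γ I y`.

This is the last theorem of the project NP (helper520) of the starting repository; its parts
`S_NAR` (relative Szemerédi theorem, narrow progressions), `S_FAMB → S_BLK` (sieve weights for blocks)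
and `S_BLK → S_BM` (finitely additive measures) are theorems of the starting files. New here
(`Pool/Agent/Run7/h614/NP/`): `S_FAMB`, the family of test functions for infinitely many blocks of
coordinates, one block for every scale of a sequence of simplices of size `2 ^ (-s)`; the passage
from `S_BM` to one infinite coloured pattern, by a limit of the measures; and the passage to all
subsets of one infinite set, by Ellentuck's theorem.
-/

set_option autoImplicit false

namespace Pool.Agent.Results.MP_8923e7_nt.HereditaryNarrowPatterns

/-- `m` shows the pattern `I` with radius `R` and the colours `γ`: the prime numbers at distance at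
most `R` from `m` are exactly the numbers `m + y`, `y ∈ I`, `|y| ≤ R`, and the colour of the prime
number `m + y` is `γ y` -/
def Shows {κ : Type} (χ : ℕ → κ) (γ : ℤ → κ) (I : Set ℤ) (R m : ℕ) : Prop :=
  ∀ y : ℤ, |y| ≤ R → ((Nat.Prime ((m : ℤ) + y).toNat ↔ y ∈ I) ∧
    (y ∈ I → χ ((m : ℤ) + y).toNat = γ y))

/-- **Hereditary infinite prime patterns along narrow progressions.** -/
theorem result (κ : Type) [Finite κ] (χ : ℕ → κ) (A : Set ℤ) (hA : A.Infinite) :
    ∃ B ⊆ A, B.Infinite ∧ ∃ γ : Set ℤ → ℤ → κ, ∀ R k : ℕ, ∃ C : ℕ, ∀ I ⊆ B, ∀ n₀ : ℕ,
      ∃ n d : ℕ, n₀ ≤ n ∧ 1 ≤ d ∧ (d : ℝ) ≤ Real.log n ^ C ∧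
        ∀ j < k, Shows χ (γ I) I R (n + j * d) :=
  Pool.Agent.Run7.h614.NP.hereditary_unif
    (Pool.Agent.Y520.NP.bm (Pool.Agent.Y291.NP.blk Pool.Agent.Run7.h614.NP.famb)
      (Pool.Agent.Y960.NP.nar Pool.Agent.Y677.RSZ.eng_all)) χ A hA

end Pool.Agent.Results.MP_8923e7_nt.HereditaryNarrowPatterns
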