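import Pool.Agent.Run7.h962.AP.A2

/-!
# The sharp limit of all nonnegative sieve weights for the number of primes in tuples

The method of Goldston, Pintz and Yıldırım in the form of Maynard and Tao shows that many of the numbers `n + h`, `h ∈ H`,
`#H = k`, are simultaneously prime: one takes a nonnegative weight `w(n)` of level `Q` (a square of a divisor sum) for which
the expected number of the primes `n + h`, with respect to `w`, is large.  If the primes have the level of distribution `θ`,
the weights of Maynard and Tao give `(θ/2 + o(1)) log k` primes, and thus (Bombieri-Vinogradov, `θ < 1/2`) `m` primes among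
`k = exp((4 + o(1)) m)` numbers.  Could other nonnegative weights (not squares, not of the shape of Selberg's sieve, with
arbitrary dependence on the residue classes) give more?  Here we prove that they cannot: for ANY weight `w ≥ 0` of level `Q`,
that is, a sum of arbitrary functions with periods `d ≤ Q`, and any `k` shifts `H` in `[0, Q^B]`,

(1) the mean number of the `n + h` which have no prime factor `≤ Q` is, with respect to `w`, at most
`(e^(-γ)/2 + ε) log k + C(ε)`;

(2) the expected number of primes (the sum of the expected main terms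
`∑_d (1/φ(d)) ∑_{a mod d, (a+h, d) = 1} c_d(a)` of `∑_{n ≤ N} w(n) log(n + h) 1_{n+h prime} / N`) is at most
`((1/2 + ε) log k + C(ε)) log Q` times the mean of `w`.

(3) For the primes themselves, unconditionally: if `Q = N^δ`, `δ < 1/2`, `H` lies in `[0, √N]`, and the norm
`∑_{d ≤ Q} (∑_a |c_d(a)|)^2 / φ(d)` is at most a fixed power of `log N` times the square of the mean of `w` (as it is for the
weights of Maynard and Tao, and as the theorem of Bombieri and Vinogradov needs), then
`∑_{n < N} w(n) #{h ∈ H : n + h prime} ≤ ((δ/2 + ε) log k + C(ε)) ∑_{n < N} w(n)`.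

All are asymptotically sharp for `k → ∞` by the weights of Maynard and Tao, so that the factor `θ/2` is optimal, and the
exponent `4` is the limit of the method with the theorem of Bombieri and Vinogradov, for all nonnegative weights.

Proof (helper962, helpers 816, 249, 420, 571, 956, 697, 743, 97, 245, 372, 91; the statements of the pieces `Run7/h962/NW/Stm`
and the files `N422/NWS/Stm`, `N422/NWS/EVAL`, `N422/NW`, `N422/WS`, `N422/SL` of helper422 are starting files).
Let `f(γ) ≥ 0` be the mean of `w` over the `n` such that for every (not too small) prime `p ≤ Q` the site `γ_p ∈ H ∪ {none}`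
is hit by `p` (`p ∣ n + γ_p`): a function of level `1` on a product space, the level of `p` being `log p / log Q`.  For every
`h` the kernel `K_z` replaces, independently at each `p`, the information that `p` hits `h` by a randomised one, with a
probability `θ_p(z)` proportional to `cosh(u t) - cos(u φ)` on the circle `|z| = 1`.  Multiplied by a power of `z`, `K_z f` is
a polynomial in `z` whose degree counts the level (MPOL), it is the identity at `z = e^(-t)`, and it is dominated by a Markov
kernel on the circle (ABS).  Jensen's inequality at the point `e^(-t)`, summed over `γ` (GEN, MULTI), gives the inequality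
`∑_γ μ(γ) f(γ) (1 - exp(- ∑_h LB(γ_h))) ≤ small`, where `LB` is the mean over the circle of the logarithm of the density
of the site.  The primes are divided into windows `[Q^(1/ρ^(l+1)), Q^(1/ρ^l)]`, and a site is charged in the first window in
which it is hit; the density of a site is expanded in the window by an orthogonal expansion over the cells (CUBE, WIN, MOM),
the average over the circle makes the mixed terms disappear (TRIG), and the terms of all windows add up by a telescoping
identity (SEQ, SITE).  With the bound for the number of the hit sites (HITN) one obtains `t · k`-independent inequalities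
(IN) whose constant is evaluated asymptotically in the ratio `ρ` and the number of cells (`EVAL`: the constant is
`e^(-γ)/2`), and the primes are inserted by Mertens' theorem (AR, MER, MER2, FIN).  (2) follows from (1) by
`∏_{p ≤ Q} (1 - 1/p)^(-1) ~ e^γ log Q` and the Chinese remainder theorem.  (3) follows from (2), the theorem of Bombieri and
Vinogradov (`H442R2/KF/Bv` of helper442, on starting files of earlier seats), the prime number theorem (`Helper507/PNT`) and
Cauchy's inequality (`Run7/h962/AP`).
-/

set_option autoImplicit false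

open Finset

namespace Pool.Agent.Results.MP_8923e7_nt.SharpLimitOfNonnegativeWeights

/-- the weight `w(n) = ∑_{d ≤ Q} c_d(n mod d)`, an arbitrary real weight of level `Q` -/
noncomputable def weight (Q : ℕ) (c : ℕ → ℕ → ℝ) (n : ℕ) : ℝ := ∑ d ∈ Icc 1 Q, c d (n % d)

/-- the mean value of `F` over the period `Q!` -/
noncomputable def mean (Q : ℕ) (F : ℕ → ℝ) : ℝ := (∑ n ∈ range Q.factorial, F n) / (Q.factorial : ℝ)

/-- the number of the `h ∈ H` for which `n + h` has no prime factor `p ≤ Q` -/
def free (Q : ℕ) (H : Finset ℕ) (n : ℕ) : ℕ := (H.filter (fun h => ∀ p ∈ Icc 1 Q, p.Prime → ¬ p ∣ n + h)).card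

/-- the expected value `∑_{d ≤ Q} (1/φ(d)) ∑_{0 ≤ a < d, (a+h, d) = 1} c_d(a)` of the mean of `w(n) Λ(n + h)`, if the primes
are equally distributed in the residue classes prime to the modulus -/
noncomputable def expected (Q : ℕ) (c : ℕ → ℕ → ℝ) (h : ℕ) : ℝ :=
  ∑ d ∈ Icc 1 Q, (∑ a ∈ (range d).filter (fun a => Nat.Coprime (a + h) d), c d a) / (Nat.totient d : ℝ)

/-- For every `ε > 0` there is `C` such that the following holds.

Let `k ≥ 1`, `B` real and `Q ≥ Q₀(ε, k, B)`, let `H` be a set of `k` integers in `[0, Q^B]` and `w ≥ 0` a weight of level `Q`.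

(1) The mean of `w(n)` times the number of the `n + h`, `h ∈ H`, without prime factors `≤ Q` is at most
`((e^(-γ)/2 + ε) log k + C)` times the mean of `w`.

(2) The sum over `h ∈ H` of the expected mean values of `w(n) Λ(n + h)` is at most `((1/2 + ε) log k + C) log Q` times the
mean of `w`.

(3) Let `k ≥ 1`, `0 < δ < 1/2`, `A ≥ 0` and `N ≥ N₀(ε, k, δ, A)`, let `H` be a set of `k` integers in `[0, √N]` and `w ≥ 0` a
weight of level `Q = ⌊N^δ⌋` with `∑_{d ≤ Q} (∑_{a < d} |c_d(a)|)^2 / φ(d) ≤ (log N)^A ((1/N) ∑_{n < N} w(n))^2`.  Then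
`∑_{n < N} w(n) #{h ∈ H : n + h prime} ≤ ((δ/2 + ε) log k + C) ∑_{n < N} w(n)`. -/
theorem result : ∀ ε : ℝ, 0 < ε → ∃ C : ℝ,
    (∀ (k : ℕ) (B : ℝ), 1 ≤ k → ∃ Q₀ : ℕ, ∀ Q : ℕ, Q₀ ≤ Q →
      ∀ H : Finset ℕ, H.card = k → (∀ h ∈ H, (h : ℝ) ≤ (Q : ℝ) ^ B) → ∀ c : ℕ → ℕ → ℝ, (∀ n, 0 ≤ weight Q c n) →
        mean Q (fun n => weight Q c n * (free Q H n : ℝ)) ≤
          ((Real.exp (-Real.eulerMascheroniConstant) / 2 + ε) * Real.log k + C) * mean Q (weight Q c) ∧
        ∑ h ∈ H, expected Q c h ≤ ((1 / 2 + ε) * Real.log k + C) * Real.log Q * mean Q (weight Q c)) ∧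
    (∀ (k : ℕ) (δ : ℝ) (A : ℕ), 1 ≤ k → 0 < δ → δ < 1 / 2 → ∃ N₀ : ℕ, ∀ N : ℕ, N₀ ≤ N →
      ∀ H : Finset ℕ, H.card = k → (∀ h ∈ H, (h : ℝ) ≤ √N) →
      ∀ c : ℕ → ℕ → ℝ, (∀ n, 0 ≤ weight ⌊(N : ℝ) ^ δ⌋₊ c n) →
        ∑ d ∈ Icc 1 ⌊(N : ℝ) ^ δ⌋₊, (∑ a ∈ range d, |c d a|) ^ 2 / (Nat.totient d : ℝ) ≤
          Real.log N ^ A * ((∑ n ∈ range N, weight ⌊(N : ℝ) ^ δ⌋₊ c n) / N) ^ 2 →
        ∑ n ∈ range N, weight ⌊(N : ℝ) ^ δ⌋₊ c n * ((H.filter (fun h => (n + h).Prime)).card : ℝ) ≤
          ((δ / 2 + ε) * Real.log k + C) * ∑ n ∈ range N, weight ⌊(N : ℝ) ^ δ⌋₊ c n) := by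
  intro ε hε
  obtain ⟨C₁, hC₁, h1⟩ := Pool.Agent.Run7.h962.NW.fin_all ε hε
  obtain ⟨C₂, hC₂, h2⟩ := Pool.Agent.Run7.h962.NW.fin_primes ε hε
  obtain ⟨C₃, hC₃, hP⟩ := Pool.Agent.Run7.h962.AP.ap ε hε
  have hm1 : C₁ ≤ max (max C₁ C₂) C₃ := (le_max_left _ _).trans (le_max_left _ _)
  have hm2 : C₂ ≤ max (max C₁ C₂) C₃ := (le_max_right _ _).trans (le_max_left _ _)
  have hm3 : C₃ ≤ max (max C₁ C₂) C₃ := le_max_right _ _
  refine ⟨max (max C₁ C₂) C₃, fun k B hk => ?_, fun k δ A hk hδ0 hδ => ?_⟩
  swap
  · obtain ⟨N₀, hP⟩ := hP k δ A hk hδ0 hδ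
    refine ⟨N₀, fun N hN H hH hHN c hc hcn => ?_⟩
    refine (hP N hN H hH hHN c hc hcn).trans ?_
    apply mul_le_mul_of_nonneg_right _ (Finset.sum_nonneg fun n _ => hc n)
    linarith
  obtain ⟨Q₁, h1⟩ := h1 k B hk
  obtain ⟨Q₂, h2⟩ := h2 k B hk
  refine ⟨max (max Q₁ Q₂) 1, fun Q hQ H hH hHB c hc => ?_⟩
  have hQ1 : Q₁ ≤ Q := ((le_max_left _ _).trans (le_max_left _ _)).trans hQ
  have hQ2 : Q₂ ≤ Q := ((le_max_right _ _).trans (le_max_left _ _)).trans hQ
  have hQ3 : 1 ≤ Q := (le_max_right _ _).trans hQ
  have hfac : (0 : ℝ) < Q.factorial := by exact_mod_cast Q.factorial_pos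
  have hM : 0 ≤ ∑ n ∈ range Q.factorial, weight Q c n := Finset.sum_nonneg (fun n _ => hc n)
  have hM' : 0 ≤ mean Q (weight Q c) := div_nonneg hM hfac.le
  have hlogQ : 0 ≤ Real.log Q := Real.log_nonneg (by exact_mod_cast hQ3)
  constructor
  · have h3 := h1 Q hQ1 H hH hHB c hc
    have hfree : ∀ n, free Q H n =
        (H.filter (fun h => ∀ p ∈ range (Q + 1), p.Prime → ¬ p ∣ n + h)).card := by
      intro n
      unfold free
      congr 1
      apply Finset.filter_congr
      intro h _
      constructor
      · intro h4 p hp hpp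
        rw [mem_range] at hp
        exact h4 p (mem_Icc.2 ⟨hpp.one_lt.le, by omega⟩) hpp
      · intro h4 p hp hpp
        rw [mem_Icc] at hp
        exact h4 p (mem_range.2 (by omega)) hpp
    have h5 : ∑ n ∈ range Q.factorial, weight Q c n * (free Q H n : ℝ) ≤
        ((Real.exp (-Real.eulerMascheroniConstant) / 2 + ε) * Real.log k + max (max C₁ C₂) C₃) *
          ∑ n ∈ range Q.factorial, weight Q c n := by
      calc _ ≤ ((Real.exp (-Real.eulerMascheroniConstant) / 2 + ε) * Real.log k + C₁) *
            ∑ n ∈ range Q.factorial, weight Q c n := by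
            refine le_trans (le_of_eq ?_) h3
            apply Finset.sum_congr rfl
            intro n _
            rw [hfree]
            rfl
        _ ≤ _ := by
            apply mul_le_mul_of_nonneg_right _ hM
            linarith
    unfold mean
    rw [← mul_div_assoc]
    exact div_le_div_of_nonneg_right h5 hfac.le
  · refine (h2 Q hQ2 H hH hHB c hc).trans ?_
    change ((1 / 2 + ε) * Real.log k + C₂) * Real.log Q * mean Q (weight Q c) ≤ _
    apply mul_le_mul_of_nonneg_right _ hM'
    apply mul_le_mul_of_nonneg_right _ hlogQ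
    linarith

end Pool.Agent.Results.MP_8923e7_nt.SharpLimitOfNonnegativeWeights
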