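import Pool.Agent.Run7.h166.TS.FinE

/-!
# All but a bounded number of the shifts up to `N` in three lists with prime windows

For every `k` there are constants `C` and `B` such that for every `η > 0` and all large `N` the following
holds. Let `V` be ANY set of shifts `h`, `0 ≤ h ≤ N`, which misses a residue class modulo every prime `p ≤ B`
(for instance all multiples of `∏_{p ≤ B} p` up to `N`). Then all members of `V` with at most `C` exceptions
can be arranged in THREE lists such that any at most `k` successive members `h_1, …, h_j` of a list are a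
prime tuple many times: `n + h_1, …, n + h_j` are all prime for at least `N ^ (1 - η)` numbers `n ≤ N`. The
prime `k`-tuples conjecture (in the quantitative form at the scale `N`) predicts this for any
arrangement of all shifts, for instance for a single list in the natural order.

The theorem is stated for families of linear forms `a x + b` of bounded slopes, also negative
ones, with `|b| ≤ 6 N / 5`, which are at least `N / 30` on `[N / 16, N / 2]`; for instance the forms
`h - n`, `8 N / 15 ≤ h ≤ 6 N / 5`, are allowed too (part 1). The second part is the qualitative version for an arbitrary finite family of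
forms, fixed while `N` tends to infinity, where moreover any given finite set of forms outside the family can
be required to be composite; `C` and `B` depend on `k` only, not on the family.

Proof. By the coloured Maynard-Tao theorem with a constant above one quarter (starting files, uniform
version `Pool.Agent.TH899.UG.Uni.exactU`) of any `4 S` blocks of `K` forms more than `S + 3 k` blocks are hit
by simultaneous primes. Lists which begin and end with long cliques are joined: if there are four lists, `4 S`
blocks are cut out of the right end cliques; two of the lists are hit `k` times each, and the cliques can be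
rearranged such that the hits are at the two ends, which are joined there (one of the lists is reversed). As
long as there are many forms left a new clique is extracted and is a new list.
-/

set_option autoImplicit false

open Filter Finset

namespace Pool.Agent.Results.MP_8923e7_nt.ThreeLists

/-- the linear form `f.1 x + f.2` has a prime value at `n` -/
def PrimeAt (f : ℤ × ℤ) (n : ℕ) : Prop := (f.1 * n + f.2).toNat.Prime

/-- The form has an integral slope `f.1 ≠ 0`, `|f.1| ≤ A`, prime to `f.2`, `|f.2| ≤ 6 N / 5`, and is at least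
`N / 30` on the interval `[N / 16, N / 2]`. The shifts `x + h`, `0 ≤ h ≤ N`, are of this type for `A = 1`. -/
def OfSize (A N : ℕ) (f : ℤ × ℤ) : Prop :=
  f.1 ≠ 0 ∧ |f.1| ≤ A ∧ IsCoprime f.1 f.2 ∧ 5 * |f.2| ≤ 6 * (N : ℤ) ∧
    ∀ y : ℝ, (N : ℝ) / 16 ≤ y → y ≤ N / 2 → (N : ℝ) / 30 ≤ f.1 * y + f.2

/-- For every prime `p ≤ B` there is a number at which no form of the family vanishes modulo `p`. -/
def Admissible (V : Finset (ℤ × ℤ)) (B : ℕ) : Prop :=
  ∀ p : ℕ, p.Prime → p ≤ B → ∃ r : ℤ, ∀ f ∈ V, ¬ (p : ℤ) ∣ f.1 * r + f.2

open Classical in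
/-- All forms of `w` are prime at the same time at `N ^ (1 - η)` or more of the numbers `n ≤ N`. -/
def Many (N : ℕ) (η : ℝ) (w : List (ℤ × ℤ)) : Prop :=
  (N : ℝ) ^ (1 - η) ≤ (((Icc 1 N).filter (fun n : ℕ => ∀ f ∈ w, PrimeAt f n)).card : ℝ)

open Classical in
/-- For any finite set `Z` of forms (with positive slopes) outside `V` and for every `η > 0` there are
arbitrarily large `N` such that for `N ^ (1 - η)` or more of the numbers `n ≤ N` all forms of `w` are prime and all
forms of `Z` are not prime at `n`. -/
def Often (V : Finset (ℤ × ℤ)) (w : List (ℤ × ℤ)) : Prop :=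
  ∀ Z : Finset (ℤ × ℤ), (∀ z ∈ Z, 1 ≤ z.1 ∧ z ∉ V) → ∀ η : ℝ, 0 < η →
    ∃ᶠ N : ℕ in atTop, (N : ℝ) ^ (1 - η) ≤ (((Icc 1 N).filter (fun n : ℕ =>
      (∀ f ∈ w, PrimeAt f n) ∧ ∀ z ∈ Z, ¬ PrimeAt z n)).card : ℝ)

/-- The three lists contain together every member of `V` at most once, nothing else, and all members of `V`
with at most `C` exceptions. -/
def Arranges (V : Finset (ℤ × ℤ)) (C : ℕ) (e : Fin 3 → List (ℤ × ℤ)) : Prop :=
  (∀ i, (e i).Nodup) ∧ (∀ i j, i ≠ j → List.Disjoint (e i) (e j)) ∧ (∀ i, ∀ f ∈ e i, f ∈ V) ∧
    (V.filter (fun f => ∀ i, f ∉ e i)).card ≤ C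

/-- **Three lists with prime windows.** The windows of length at most `k` of a list `l` are the lists `w` with
`w <:+: l` (`w` consists of successive members of `l`) and `w.length ≤ k`. -/
theorem result (k : ℕ) : ∃ C B : ℕ,
    (∀ (A : ℕ) (η : ℝ), 0 < η → ∀ᶠ N : ℕ in atTop, ∀ V : Finset (ℤ × ℤ), (∀ f ∈ V, OfSize A N f) →
      Admissible V B → ∃ e : Fin 3 → List (ℤ × ℤ), Arranges V C e ∧
        ∀ i, ∀ w : List (ℤ × ℤ), w <:+: e i → w.length ≤ k → Many N η w) ∧
    ∀ V : Finset (ℤ × ℤ), (∀ f ∈ V, 1 ≤ f.1 ∧ IsCoprime f.1 f.2) → Admissible V B →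
      ∃ e : Fin 3 → List (ℤ × ℤ), Arranges V C e ∧
        ∀ i, ∀ w : List (ℤ × ℤ), w <:+: e i → w ≠ [] → w.length ≤ k → Often V w := by
  classical
  obtain ⟨C₁, B₁, h₁⟩ := Pool.Agent.Run7.h166.TS.fin3 k
  obtain ⟨C₂, B₂, h₂⟩ := Pool.Agent.Run7.h166.TS.finE k
  refine ⟨max C₁ C₂, max B₁ B₂, ?_, ?_⟩
  · intro A η hη
    filter_upwards [h₁ A η hη] with N hN V hV hloc
    obtain ⟨e, e1, e2, e3, e4, e5⟩ := hN V hV (fun p hp hpB => hloc p hp (hpB.trans (le_max_left _ _)))
    refine ⟨e, ⟨e1, e2, e3, le_trans (le_of_eq ?_) (e4.trans (le_max_left _ _))⟩, fun i w hw hwk => ?_⟩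
    · congr 1
    · have h := e5 i w hw hwk
      unfold Pool.Agent.Run7.h166.TS.Many at h
      unfold Many
      refine h.trans ?_
      rw [Nat.cast_le]
      refine card_le_card (monotone_filter_right _ ?_)
      intro n _ hn f hf
      exact hn f (List.mem_toFinset.2 hf)
  · intro V hV hloc
    obtain ⟨e, e1, e2, e3, e4, e5⟩ := h₂ V hV (fun p hp hpB => hloc p hp (hpB.trans (le_max_right _ _)))
    refine ⟨e, ⟨e1, e2, e3, le_trans (le_of_eq ?_) (e4.trans (le_max_right _ _))⟩,
      fun i w hw hw0 hwk Z hZ η hη => ?_⟩
    · congr 1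
    · refine (e5 i w hw hw0 hwk Z hZ η hη).mono fun N hN => hN.trans ?_
      rw [Nat.cast_le]
      refine card_le_card (monotone_filter_right _ ?_)
      intro n _ hn
      exact ⟨fun f hf => hn.1 f (List.mem_toFinset.2 hf), hn.2⟩

end Pool.Agent.Results.MP_8923e7_nt.ThreeLists
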