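import Mathlib
import Pool.Agent.Run7.h275.WC

/-! # The number of words of length `n` in the indicator sequence of the primes

A word of length `n` is given by the set `w ⊆ [0, n)` of the positions of its ones. It occurs infinitely
often in the indicator sequence of the primes if for infinitely many `N` the primes in `[N, N + n)` are
exactly the numbers `N + i`, `i ∈ w`. The prime `k`-tuples conjecture says that this holds for every
admissible set `w`.

At least `exp ((1 / 16 - ε) (log n) ^ 2)` words of length `n` occur infinitely often in the indicator
sequence of the primes, for `n ≥ n₀(ε)`: the subword complexity of the primes grows faster than every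
polynomial, also if only the recurrent words are counted.

The proof (`Run7.h275.WC`) gives more precisely: for all large `n` and ALL `k ≥ 3` with
`e ^ (4 k) log n ≤ n`, at least `(n / (e ^ (4 k) log n)) ^ k` of the `k`-element subsets `S` of `[0, n)` are
blocks, which means that for infinitely many `N` the numbers `N + s`, `s ∈ S`, are consecutive primes. This
uses the starting files on patterns in admissible sets with `exp (4 m + 0.58)` elements (helper358), uniformly
in `m`, and the count of the families of sets which hit all sets of a given size. -/

open Finset Filter

open Classical in
/-- The number of the words of length `n` which occur infinitely often in the indicator sequence of the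
primes is at least `exp ((1 / 16 - ε) (log n) ^ 2)`. -/
theorem Pool.Agent.Results.MP_8923e7_nt.WordComplexity.result (ε : ℝ) (hε : 0 < ε) :
    ∀ᶠ n : ℕ in atTop, Real.exp ((1 / 16 - ε) * Real.log n ^ 2) ≤
      ((range n).powerset.filter fun w =>
        {N : ℕ | ∀ i < n, (N + i).Prime ↔ i ∈ w}.Infinite).card := by
  filter_upwards [Run7.h275.WC.words_large ε hε] with n hn
  refine hn.trans ?_
  have h : ((range n).powerset.filter (Run7.h275.WC.Word n)).card ≤
      ((range n).powerset.filter fun w => {N : ℕ | ∀ i < n, (N + i).Prime ↔ i ∈ w}.Infinite).card := by
    apply card_le_card
    intro w hw
    rw [mem_filter] at hw ⊢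
    exact ⟨hw.1, hw.2.2⟩
  exact_mod_cast h
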